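import Mathlib
import Pool.Agent.H23.Decomp

set_option autoImplicit false

namespace Pool.Agent.Results.MP_233b81_lc.Antichains

open Pool.Agent.H23.Decomp

theorem result : ∃ P : Set (ℕ → ℕ), CB P ∧ ∀ (A : Type) [PartialOrder A] (k : ℕ),
    ¬ ∃ F : AntiDec A k → P, Function.Surjective F ∧ ∀ p, (F ⁻¹' {p}).Finite :=
  main.2.imp fun _ h => ⟨h.1, fun A _ k => (h.2 A k).2⟩

end Pool.Agent.Results.MP_233b81_lc.Antichains
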